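import Mathlib

open MeasureTheory unitInterval Set

namespace Pool.Agent.X72.Dom

/-- graphon -/
structure Graphon where
  W : I → I → ℝ
  symm : ∀ x y, W x y = W y x
  meas : Measurable (Function.uncurry W)
  nonneg : ∀ x y, 0 ≤ W x y
  le_one : ∀ x y, W x y ≤ 1

/-- the value `W(x_u, x_v)` at the pair `e = {u, v}` -/
def Graphon.edge (W : Graphon) {V : Type} (x : V → I) (e : Sym2 V) : ℝ :=
  Sym2.lift ⟨fun u v => W.W (x u) (x v), fun u v => W.symm (x u) (x v)⟩ e

open Classical in
/-- homomorphism density -/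
noncomputable def Graphon.t (W : Graphon) {V : Type} [Fintype V] (G : SimpleGraph V) : ℝ :=
  ∫ x : V → I, ∏ e ∈ G.edgeFinset, W.edge x e

/-- degree -/
noncomputable def Graphon.d (W : Graphon) (x : I) : ℝ := ∫ y, W.W x y

/-- moments of the degree = star densities -/
noncomputable def Graphon.m (W : Graphon) (i : ℕ) : ℝ := ∫ x, W.d x ^ i

lemma edge_mk (W : Graphon) {V : Type} (x : V → I) (u v : V) :
    W.edge x s(u, v) = W.W (x u) (x v) := rfl

lemma W_int (W : Graphon) (x : I) : Integrable (fun y => W.W x y) := by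
  apply Integrable.of_bound (C := 1)
  · exact (W.meas.comp measurable_prodMk_left).aestronglyMeasurable
  · filter_upwards with y
    rw [Real.norm_eq_abs, abs_of_nonneg (W.nonneg x y)]
    exact W.le_one x y

lemma d_nonneg (W : Graphon) (x : I) : 0 ≤ W.d x := integral_nonneg fun y => W.nonneg x y

lemma d_le_one (W : Graphon) (x : I) : W.d x ≤ 1 := by
  calc W.d x ≤ ∫ _ : I, (1 : ℝ) := integral_mono (W_int W x) (integrable_const _) (W.le_one x)
    _ = 1 := by simp

lemma d_meas (W : Graphon) : Measurable W.d := by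
  have : StronglyMeasurable (Function.uncurry W.W) := W.meas.stronglyMeasurable
  exact this.integral_prod_right.measurable

lemma d_pow_int (W : Graphon) (i : ℕ) : Integrable (fun x => W.d x ^ i) := by
  apply Integrable.of_bound (C := 1)
  · exact ((d_meas W).pow_const i).aestronglyMeasurable
  · filter_upwards with y
    rw [Real.norm_eq_abs, abs_of_nonneg (pow_nonneg (d_nonneg W y) i)]
    exact pow_le_one₀ (d_nonneg W y) (d_le_one W y)

/-- the star with centre `0` and `a` leaves -/
lemma star_integral (W : Graphon) (a : ℕ) :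
    ∫ x : Fin (a + 1) → I, ∏ i : Fin a, W.W (x 0) (x i.succ) = W.m a := by
  have he := volume_preserving_piFinSuccAbove (fun _ : Fin (a + 1) => I) 0
  have h1 : ∫ x : Fin (a + 1) → I, ∏ i : Fin a, W.W (x 0) (x i.succ) =
      ∫ z : I × (Fin a → I), ∏ i : Fin a, W.W z.1 (z.2 i) := by
    rw [← he.integral_comp' (fun z : I × (Fin a → I) => ∏ i : Fin a, W.W z.1 (z.2 i))]
    rfl
  rw [h1]
  have hint : Integrable (fun z : I × (Fin a → I) => ∏ i : Fin a, W.W z.1 (z.2 i))
      ((volume : Measure I).prod (volume : Measure (Fin a → I))) := by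
    apply Integrable.of_bound (C := 1)
    · apply Measurable.aestronglyMeasurable
      apply Finset.measurable_prod
      intro i _
      exact W.meas.comp (measurable_fst.prodMk ((measurable_pi_apply i).comp measurable_snd))
    · filter_upwards with z
      rw [Real.norm_eq_abs, abs_of_nonneg (Finset.prod_nonneg fun i _ => W.nonneg _ _)]
      exact Finset.prod_le_one (fun i _ => W.nonneg _ _) (fun i _ => W.le_one _ _)
  have h2 : ∫ z : I × (Fin a → I), ∏ i : Fin a, W.W z.1 (z.2 i) =
      ∫ x : I, ∫ y : Fin a → I, ∏ i : Fin a, W.W x (y i) := integral_prod _ hint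
  rw [h2]
  unfold Graphon.m Graphon.d
  congr 1
  funext x
  rw [integral_fintype_prod_volume_eq_pow (fun y => W.W x y)]
  simp

/-- edges of the disjoint union of two stars -/
def phi (a b : ℕ) : Fin a ⊕ Fin b → Sym2 (Fin (a + 1) ⊕ Fin (b + 1))
  | Sum.inl i => s(Sum.inl 0, Sum.inl i.succ)
  | Sum.inr i => s(Sum.inr 0, Sum.inr i.succ)

/-- the disjoint union of the stars with `a` and `b` leaves -/
def stars (a b : ℕ) : SimpleGraph (Fin (a + 1) ⊕ Fin (b + 1)) :=
  SimpleGraph.fromEdgeSet (Set.range (phi a b))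

lemma phi_inj (a b : ℕ) : Function.Injective (phi a b) := by
  rintro (i | i) (j | j) h
  · simp only [phi, Sym2.eq_iff] at h
    rcases h with ⟨-, h⟩ | ⟨h, -⟩
    · rw [Sum.inl.injEq, Fin.succ_inj] at h
      rw [h]
    · rw [Sum.inl.injEq] at h
      exact absurd h.symm (Fin.succ_ne_zero j)
  · simp [phi] at h
  · simp [phi] at h
  · simp only [phi, Sym2.eq_iff] at h
    rcases h with ⟨-, h⟩ | ⟨h, -⟩
    · rw [Sum.inr.injEq, Fin.succ_inj] at h
      rw [h]
    · rw [Sum.inr.injEq] at h
      exact absurd h.symm (Fin.succ_ne_zero j)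

lemma edges_stars (a b : ℕ) : (stars a b).edgeSet = Set.range (phi a b) := by
  rw [stars, SimpleGraph.edgeSet_fromEdgeSet]
  ext e
  constructor
  · rintro ⟨h, -⟩
    exact h
  · rintro ⟨i, rfl⟩
    refine ⟨⟨i, rfl⟩, ?_⟩
    rcases i with i | i
    · simp [phi, (Fin.succ_ne_zero i).symm]
    · simp [phi, (Fin.succ_ne_zero i).symm]

theorem t_stars (W : Graphon) (a b : ℕ) : W.t (stars a b) = W.m a * W.m b := by
  classical
  unfold Graphon.t
  have h1 : ∀ x : (Fin (a + 1) ⊕ Fin (b + 1)) → I, ∏ e ∈ (stars a b).edgeFinset, W.edge x e =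
      (∏ i : Fin a, W.W (x (Sum.inl 0)) (x (Sum.inl i.succ))) *
        ∏ i : Fin b, W.W (x (Sum.inr 0)) (x (Sum.inr i.succ)) := by
    intro x
    have h2 : (stars a b).edgeFinset = Finset.univ.image (phi a b) := by
      ext e
      rw [SimpleGraph.mem_edgeFinset, edges_stars]
      simp
    rw [h2, Finset.prod_image (fun i _ j _ h => phi_inj a b h), Fintype.prod_sum_type]
    rfl
  have h3 : ∫ x : (Fin (a + 1) ⊕ Fin (b + 1)) → I, ∏ e ∈ (stars a b).edgeFinset, W.edge x e =
      ∫ x : (Fin (a + 1) ⊕ Fin (b + 1)) → I,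
      (∏ i : Fin a, W.W (x (Sum.inl 0)) (x (Sum.inl i.succ))) *
        ∏ i : Fin b, W.W (x (Sum.inr 0)) (x (Sum.inr i.succ)) := by
    congr 1
    funext x
    exact h1 x
  have he := volume_measurePreserving_sumPiEquivProdPi (fun _ : Fin (a + 1) ⊕ Fin (b + 1) => I)
  have h4 : ∫ x : (Fin (a + 1) ⊕ Fin (b + 1)) → I,
      (∏ i : Fin a, W.W (x (Sum.inl 0)) (x (Sum.inl i.succ))) *
        ∏ i : Fin b, W.W (x (Sum.inr 0)) (x (Sum.inr i.succ)) =
      ∫ z : (Fin (a + 1) → I) × (Fin (b + 1) → I), (∏ i : Fin a, W.W (z.1 0) (z.1 i.succ)) *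
        ∏ i : Fin b, W.W (z.2 0) (z.2 i.succ) := by
    rw [← he.integral_comp' (fun z : (Fin (a + 1) → I) × (Fin (b + 1) → I) =>
      (∏ i : Fin a, W.W (z.1 0) (z.1 i.succ)) * ∏ i : Fin b, W.W (z.2 0) (z.2 i.succ))]
    rfl
  have h5 : ∫ z : (Fin (a + 1) → I) × (Fin (b + 1) → I), (∏ i : Fin a, W.W (z.1 0) (z.1 i.succ)) *
        ∏ i : Fin b, W.W (z.2 0) (z.2 i.succ) = W.m a * W.m b := by
    have := integral_prod_mul (μ := (volume : Measure (Fin (a + 1) → I)))
      (ν := (volume : Measure (Fin (b + 1) → I)))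
      (fun x => ∏ i : Fin a, W.W (x 0) (x i.succ)) (fun x => ∏ i : Fin b, W.W (x 0) (x i.succ))
    rw [star_integral, star_integral] at this
    exact this
  convert h3.trans (h4.trans h5) using 3

end Pool.Agent.X72.Dom
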