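import Pool.Agent.X72.Dom.A

open MeasureTheory unitInterval Set Real

namespace Pool.Agent.X72.Dom

lemma m_zero (W : Graphon) : W.m 0 = 1 := by simp [Graphon.m]

lemma m_nonneg (W : Graphon) (i : ℕ) : 0 ≤ W.m i :=
  integral_nonneg fun x => pow_nonneg (d_nonneg W x) i

lemma m_anti (W : Graphon) (i : ℕ) : W.m (i + 1) ≤ W.m i := by
  apply integral_mono (d_pow_int W _) (d_pow_int W _)
  intro x
  exact pow_le_pow_of_le_one (d_nonneg W x) (d_le_one W x) (Nat.le_succ i)

lemma m_le_one (W : Graphon) (i : ℕ) : W.m i ≤ 1 := by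
  induction i with
  | zero => rw [m_zero]
  | succ i ih => exact (m_anti W i).trans ih

lemma m_quad (W : Graphon) (i : ℕ) (t : ℝ) : 0 ≤ W.m (i + 2) - 2 * t * W.m (i + 1) + t ^ 2 * W.m i := by
  have h : W.m (i + 2) - 2 * t * W.m (i + 1) + t ^ 2 * W.m i = ∫ x, W.d x ^ i * (W.d x - t) ^ 2 := by
    have a := d_pow_int W (i + 2)
    have b := (d_pow_int W (i + 1)).const_mul (2 * t)
    have c := (d_pow_int W i).const_mul (t ^ 2)
    have e1 := integral_add (f := fun x => W.d x ^ (i + 2) - 2 * t * W.d x ^ (i + 1))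
      (g := fun x => t ^ 2 * W.d x ^ i) (a.sub b) c
    have e2 := integral_sub (f := fun x => W.d x ^ (i + 2))
      (g := fun x => 2 * t * W.d x ^ (i + 1)) a b
    rw [integral_const_mul] at e1 e2
    unfold Graphon.m
    rw [← e2, ← e1]
    congr 1
    funext x
    ring
  rw [h]
  exact integral_nonneg fun x => mul_nonneg (pow_nonneg (d_nonneg W x) i) (sq_nonneg _)

lemma m_cs (W : Graphon) (i : ℕ) : W.m (i + 1) ^ 2 ≤ W.m i * W.m (i + 2) := by
  rcases (m_nonneg W i).eq_or_lt with h | h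
  · have h1 : W.m (i + 1) = 0 := le_antisymm ((m_anti W i).trans h.symm.le) (m_nonneg W _)
    rw [h1, ← h]
    simp
  · have h1 := m_quad W i (W.m (i + 1) / W.m i)
    have h2 : W.m (i + 2) - 2 * (W.m (i + 1) / W.m i) * W.m (i + 1) + (W.m (i + 1) / W.m i) ^ 2 * W.m i
        = W.m (i + 2) - W.m (i + 1) ^ 2 / W.m i := by
      field_simp
      ring
    rw [h2, sub_nonneg, div_le_iff₀ h] at h1
    linarith

lemma m_pos (W : Graphon) {j : ℕ} (hj : W.m (j + 1) ≠ 0) (i : ℕ) : 0 < W.m i := by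
  have h1 : 0 < W.m 1 := by
    have h2 : W.m (j + 1) ≤ W.m 1 := by
      clear hj
      induction j with
      | zero => exact le_rfl
      | succ j ih => exact (m_anti W (j + 1)).trans ih
    exact lt_of_lt_of_le (lt_of_le_of_ne (m_nonneg W _) (Ne.symm hj)) h2
  have h3 : ∀ i, 0 < W.m i ∧ 0 < W.m (i + 1) := by
    intro i
    induction i with
    | zero => exact ⟨by rw [m_zero]; exact one_pos, h1⟩
    | succ i ih =>
      refine ⟨ih.2, ?_⟩
      have h4 := m_cs W i
      by_contra h5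
      have h6 : W.m (i + 1 + 1) = 0 := le_antisymm (not_lt.1 h5) (m_nonneg W _)
      have h7 : W.m (i + 2) = 0 := h6
      rw [h7, mul_zero] at h4
      have := pow_pos ih.2 2
      linarith
  exact (h3 i).1

/-- abstract sequences -/
structure Seq (y : ℕ → ℝ) : Prop where
  zero : y 0 = 0
  mono : ∀ i, y i ≤ y (i + 1)
  conc : ∀ i, y i + y (i + 2) ≤ 2 * y (i + 1)

lemma seq_of (W : Graphon) (h : ∀ i, 0 < W.m i) : Seq fun i => -log (W.m i) where
  zero := by simp [m_zero]
  mono i := by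
    have := log_le_log (h (i + 1)) (m_anti W i)
    linarith
  conc i := by
    have h1 := log_le_log (pow_pos (h (i + 1)) 2) (m_cs W i)
    rw [log_pow, log_mul (h i).ne' (h (i + 2)).ne'] at h1
    push_cast at h1
    linarith

namespace Seq
variable {y : ℕ → ℝ} (hy : Seq y)
include hy

lemma mono' : Monotone y := monotone_nat_of_le_succ hy.mono

lemma s1 (i : ℕ) : (i : ℝ) * y (i + 1) ≤ (i + 1) * y i := by
  induction i with
  | zero => simp [hy.zero]
  | succ i ih =>
    have h1 := hy.conc i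
    have hi : (0 : ℝ) < (i : ℝ) + 1 := by positivity
    push_cast
    have h2 : ((i : ℝ) + 1) * y (i + 1 + 1) ≤ (i + 1) * (2 * y (i + 1) - y i) := by
      apply mul_le_mul_of_nonneg_left _ hi.le
      have : y (i + 1 + 1) = y (i + 2) := rfl
      linarith
    nlinarith

lemma s2 {i l : ℕ} (h : i ≤ l) : y (l + 1) - y l ≤ y (i + 1) - y i := by
  induction l, h using Nat.le_induction with
  | base => exact le_rfl
  | succ l _ ih =>
    have := hy.conc l
    have h2 : y (l + 1 + 1) = y (l + 2) := rfl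
    linarith

lemma key {k l : ℕ} (h : k < l) (hp : 0 < y (k + 1)) :
    4 - 1 / ((k : ℝ) + 1) ≤ (y k + y (k + 2)) / y (k + 1) + (y l + y (l + 2)) / y (l + 1) := by
  have hk : (0 : ℝ) < (k : ℝ) + 1 := by positivity
  have hbb : y (k + 1) ≤ y (l + 1) := hy.mono' (by omega)
  have hp' : 0 < y (l + 1) := hp.trans_le hbb
  have h1 : (k : ℝ) / (k + 1) ≤ y k / y (k + 1) := by
    rw [div_le_div_iff₀ hk hp]
    have := hy.s1 k
    linarith
  have h2 : y (l + 1) - y l ≤ y (k + 2) - y (k + 1) := hy.s2 (i := k + 1) (by omega)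
  have h3 : (y (l + 1) - y l) / y (l + 1) ≤ (y (k + 2) - y (k + 1)) / y (k + 1) := by
    have h0 := hy.mono l
    calc (y (l + 1) - y l) / y (l + 1) ≤ (y (l + 1) - y l) / y (k + 1) := by
          apply div_le_div_of_nonneg_left _ hp hbb
          linarith
      _ ≤ (y (k + 2) - y (k + 1)) / y (k + 1) := by
          apply div_le_div_of_nonneg_right h2 hp.le
  have h4 : 1 ≤ y (l + 2) / y (l + 1) := by
    rw [le_div_iff₀ hp', one_mul]
    exact hy.mono (l + 1)
  have e1 : (y (l + 1) - y l) / y (l + 1) = 1 - y l / y (l + 1) := by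
    field_simp
  have e2 : (y (k + 2) - y (k + 1)) / y (k + 1) = y (k + 2) / y (k + 1) - 1 := by
    field_simp
  rw [e1, e2] at h3
  have e3 : (y k + y (k + 2)) / y (k + 1) = y k / y (k + 1) + y (k + 2) / y (k + 1) := add_div _ _ _
  have e4 : (y l + y (l + 2)) / y (l + 1) = y l / y (l + 1) + y (l + 2) / y (l + 1) := add_div _ _ _
  have e5 : (k : ℝ) / (k + 1) = 1 - 1 / (k + 1) := by
    field_simp
    ring
  rw [e3, e4]
  linarith

lemma upper {k : ℕ} (hp : 0 < y (k + 1)) :
    2 * y (k + 1) / (y k + y (k + 2)) ≤ 2 * ((k : ℝ) + 1) / (2 * k + 1) := by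
  have hk : (0 : ℝ) < (k : ℝ) + 1 := by positivity
  have h1 := hy.s1 k
  have h2 := hy.mono (k + 1)
  have h2' : y (k + 1) ≤ y (k + 2) := h2
  have h0 : 0 ≤ y k := by
    have := hy.mono' (Nat.zero_le k)
    rwa [hy.zero] at this
  have hpos : 0 < y k + y (k + 2) := by linarith
  rw [div_le_div_iff₀ hpos (by positivity)]
  nlinarith

end Seq

/-- the ratio of the logarithms -/
noncomputable def rat (k : ℕ) (W : Graphon) : ℝ :=
  log (W.t (stars (k + 1) (k + 1))) / log (W.t (stars k (k + 2)))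

lemma rat_eq (k : ℕ) (W : Graphon) (h : ∀ i, 0 < W.m i) :
    rat k W = 2 * (-log (W.m (k + 1))) / (-log (W.m k) + -log (W.m (k + 2))) := by
  unfold rat
  rw [t_stars, t_stars, log_mul (h _).ne' (h _).ne', log_mul (h _).ne' (h _).ne', ← neg_div_neg_eq]
  congr 1 <;> ring

/-- if the ratio is not zero, the graphon is not degenerate -/
lemma rat_ne {k : ℕ} {W : Graphon} (h : rat k W ≠ 0) :
    (∀ i, 0 < W.m i) ∧ 0 < -log (W.m (k + 1)) := by
  have h1 : log (W.t (stars (k + 1) (k + 1))) ≠ 0 := by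
    intro h0
    apply h
    rw [rat, h0, zero_div]
  rw [t_stars] at h1
  have h2 : W.m (k + 1) ≠ 0 := by
    intro h0
    apply h1
    rw [h0]
    simp
  have h3 := m_pos W h2
  refine ⟨h3, ?_⟩
  have h4 : W.m (k + 1) ≠ 1 := by
    intro h0
    apply h1
    rw [h0]
    simp
  have h5 := log_neg (h3 (k + 1)) (lt_of_le_of_ne (m_le_one W _) h4)
  linarith

lemma rat_upper {k : ℕ} {W : Graphon} (h : rat k W ≠ 0) :
    rat k W ≤ 2 * ((k : ℝ) + 1) / (2 * k + 1) := by
  obtain ⟨h1, h2⟩ := rat_ne h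
  rw [rat_eq k W h1]
  exact (seq_of W h1).upper h2

lemma rat_key {k l : ℕ} (hkl : k < l) {W : Graphon} (h : rat k W ≠ 0) :
    4 - 1 / ((k : ℝ) + 1) ≤ 2 / rat k W + 2 / rat l W := by
  obtain ⟨h1, h2⟩ := rat_ne h
  have h3 := (seq_of W h1).key hkl h2
  rw [rat_eq k W h1, rat_eq l W h1]
  have hb : 0 < -log (W.m (l + 1)) := h2.trans_le ((seq_of W h1).mono' (by omega))
  have e : ∀ a b : ℝ, 0 < b → 2 / (2 * b / a) = a / b := by
    intro a b hb
    rcases eq_or_ne a 0 with rfl | ha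
    · simp
    · field_simp
  rw [e _ _ h2, e _ _ hb]
  exact h3

end Pool.Agent.X72.Dom
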