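import Pool.Agent.X72.Dom.B

open MeasureTheory unitInterval Set Real

namespace Pool.Agent.X72.Dom

lemma step_integral {a : ℝ} (h0 : 0 ≤ a) (h1 : a ≤ 1) (p q : ℝ) :
    ∫ x : I, (if (x : ℝ) ≤ a then p else q) = a * p + (1 - a) * q := by
  let a' : I := ⟨a, h0, h1⟩
  have e : (fun x : I => if (x : ℝ) ≤ a then p else q) =
      fun x => (Iic a').indicator (fun _ => p - q) x + q := by
    funext x
    by_cases h : (x : ℝ) ≤ a
    · have : x ∈ Iic a' := h
      rw [if_pos h, indicator_of_mem this]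
      ring
    · have : x ∉ Iic a' := h
      rw [if_neg h, indicator_of_notMem this]
      ring
  rw [e, integral_add _ (integrable_const _), integral_indicator_const _ measurableSet_Iic]
  · have : volume.real (Iic a') = a := by
      rw [measureReal_def, unitInterval.volume_Iic]
      exact ENNReal.toReal_ofReal h0
    rw [this]
    simp
    ring
  · exact (integrable_const _).indicator measurableSet_Iic

/-- the hub graphon -/
noncomputable def hub (a ε : ℝ) (h0 : 0 ≤ ε) (h1 : ε ≤ 1) : Graphon where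
  W x y := if (x : ℝ) ≤ a ∨ (y : ℝ) ≤ a then 1 else ε
  symm x y := by simp only [or_comm]
  meas := by
    apply Measurable.ite
    · apply MeasurableSet.union
      · exact measurableSet_le (measurable_subtype_coe.comp measurable_fst) measurable_const
      · exact measurableSet_le (measurable_subtype_coe.comp measurable_snd) measurable_const
    · exact measurable_const
    · exact measurable_const
  nonneg x y := by split_ifs <;> linarith
  le_one x y := by split_ifs <;> linarith

lemma hub_d {a ε : ℝ} (h0 : 0 ≤ ε) (h1 : ε ≤ 1) (ha : 0 ≤ a) (ha1 : a ≤ 1) (x : I) :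
    (hub a ε h0 h1).d x = if (x : ℝ) ≤ a then 1 else a + (1 - a) * ε := by
  unfold Graphon.d hub
  simp only
  by_cases h : (x : ℝ) ≤ a
  · simp [h]
  · simp only [h, false_or, if_false]
    rw [step_integral ha ha1]
    ring

lemma hub_m {a ε : ℝ} (h0 : 0 ≤ ε) (h1 : ε ≤ 1) (ha : 0 ≤ a) (ha1 : a ≤ 1) (i : ℕ) :
    (hub a ε h0 h1).m i = a + (1 - a) * (a + (1 - a) * ε) ^ i := by
  unfold Graphon.m
  have : (fun x => (hub a ε h0 h1).d x ^ i) =
      fun x : I => if (x : ℝ) ≤ a then (1 : ℝ) else (a + (1 - a) * ε) ^ i := by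
    funext x
    rw [hub_d h0 h1 ha ha1]
    split_ifs
    · simp
    · rfl
  rw [this, step_integral ha ha1]
  ring

lemma exists_hub (k : ℕ) {c : ℝ} (hc : c < 2 * ((k : ℝ) + 1) / (2 * k + 1)) :
    ∃ W : Graphon, W.t (stars k (k + 2)) ≠ 0 ∧ W.t (stars k (k + 2)) ≠ 1 ∧
      W.t (stars (k + 1) (k + 1)) ≠ 0 ∧ c < rat k W := by
  have hk : (0 : ℝ) < 2 * k + 1 := by positivity
  have hk0 : (0 : ℝ) ≤ k := by positivity
  set c' := max c 1 with hc'
  have hc1 : c' < 2 * ((k : ℝ) + 1) / (2 * k + 1) := by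
    apply max_lt hc
    rw [lt_div_iff₀ hk]
    linarith
  have hc1' : 1 ≤ c' := le_max_right _ _
  have hD : 0 < 2 * ((k : ℝ) + 1) - c' * (2 * k + 1) := by
    rw [lt_div_iff₀ hk] at hc1
    linarith
  set D := 2 * ((k : ℝ) + 1) - c' * (2 * k + 1) with hDdef
  set C := log (1 + 2 ^ (k + 1)) with hC
  have hC0 : 0 ≤ C := log_nonneg (by
    have : (0 : ℝ) ≤ 2 ^ (k + 1) := by positivity
    linarith)
  have hl2 : 0 < log 2 := log_pos (by norm_num)
  obtain ⟨L, hL1, hL2⟩ : ∃ L : ℝ, (2 * C + c' * log 2) / D < L ∧ log 2 ≤ L :=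
    ⟨max ((2 * C + c' * log 2) / D + 1) (log 2),
      lt_of_lt_of_le (by linarith) (le_max_left _ _), le_max_right _ _⟩
  have hL1' : 2 * C + c' * log 2 < L * D := (div_lt_iff₀ hD).1 hL1
  have hL0 : 0 < L := hl2.trans_le hL2
  set ε := exp (-L) with hε
  have hε0 : 0 < ε := exp_pos _
  have hε2 : ε ≤ 1 / 2 := by
    rw [hε, show (1 / 2 : ℝ) = exp (-log 2) by
      rw [exp_neg, exp_log (by norm_num)]; norm_num]
    exact exp_le_exp.2 (by linarith)
  have hε1 : ε ≤ 1 := by linarith
  set a := ε ^ (k + 1) with ha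
  have ha0 : 0 < a := pow_pos hε0 _
  have haε : a ≤ ε := by
    rw [ha, pow_succ]
    have := pow_le_one₀ hε0.le hε1 (n := k)
    nlinarith
  have ha1 : a ≤ 1 := by linarith
  have hlε : log ε = -L := by rw [hε, log_exp]
  have hla : log a = -((k + 1) * L) := by
    rw [ha, log_pow, hlε]
    push_cast
    ring
  let W := hub a ε hε0.le hε1
  have hm : ∀ i, W.m i = a + (1 - a) * (a + (1 - a) * ε) ^ i := hub_m hε0.le hε1 ha0.le ha1
  set δ := a + (1 - a) * ε with hδ
  have hδ1 : ε ≤ δ := by nlinarith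
  have hδ2 : δ ≤ 2 * ε := by nlinarith
  have hδ0 : 0 < δ := by linarith
  have hmpos : ∀ i, 0 < W.m i := by
    intro i
    rw [hm]
    have := pow_pos hδ0 i
    have h1a : 0 ≤ 1 - a := by linarith
    have := mul_nonneg h1a this.le
    linarith
  -- the three bounds
  have b1 : (k + 1) * L - C ≤ -log (W.m (k + 1)) := by
    have h1 : W.m (k + 1) ≤ a * (1 + 2 ^ (k + 1)) := by
      rw [hm]
      have h2 : δ ^ (k + 1) ≤ (2 * ε) ^ (k + 1) := pow_le_pow_left₀ hδ0.le hδ2 _
      rw [mul_pow] at h2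
      have h3 : (1 - a) * δ ^ (k + 1) ≤ δ ^ (k + 1) := by
        have := pow_pos hδ0 (k + 1)
        nlinarith
      calc a + (1 - a) * δ ^ (k + 1) ≤ a + 2 ^ (k + 1) * ε ^ (k + 1) := by linarith
        _ = a * (1 + 2 ^ (k + 1)) := by rw [← ha]; ring
    have h2 := log_le_log (hmpos _) h1
    rw [log_mul ha0.ne' (by positivity), hla] at h2
    linarith
  have b2 : -log (W.m (k + 2)) ≤ (k + 1) * L := by
    have h1 : a ≤ W.m (k + 2) := by
      rw [hm]
      have := pow_pos hδ0 (k + 2)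
      have h1a : 0 ≤ 1 - a := by linarith
      have := mul_nonneg h1a this.le
      linarith
    have h2 := log_le_log ha0 h1
    rw [hla] at h2
    linarith
  have b3 : -log (W.m k) ≤ k * L + log 2 := by
    have h1 : ε ^ k / 2 ≤ W.m k := by
      rw [hm]
      have h2 : ε ^ k ≤ δ ^ k := pow_le_pow_left₀ hε0.le hδ1 _
      have h3 := pow_pos hε0 k
      nlinarith
    have h2 := log_le_log (by positivity) h1
    rw [log_div (by positivity) (by norm_num), log_pow, hlε] at h2
    linarith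
  have b0 : 0 ≤ -log (W.m k) := by
    have := log_nonpos (hmpos k).le (m_le_one W k)
    linarith
  have hnum : c' * ((2 * k + 1) * L + log 2) < 2 * ((k + 1) * L - C) := by
    rw [hDdef] at hL1'
    nlinarith
  have hypos : 0 < (k + 1) * L - C := by
    have : 0 < c' * ((2 * k + 1) * L + log 2) := by positivity
    linarith
  have hy2 : -log (W.m (k + 1)) ≤ -log (W.m (k + 2)) := (seq_of W hmpos).mono (k + 1)
  have hden : 0 < -log (W.m k) + -log (W.m (k + 2)) := by linarith
  have hrat : c' < rat k W := by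
    rw [rat_eq k W hmpos, lt_div_iff₀ hden]
    calc c' * (-log (W.m k) + -log (W.m (k + 2))) ≤ c' * ((2 * k + 1) * L + log 2) := by
          apply mul_le_mul_of_nonneg_left _ (by linarith)
          linarith
      _ < 2 * ((k + 1) * L - C) := hnum
      _ ≤ 2 * (-log (W.m (k + 1))) := by linarith
  refine ⟨W, ?_, ?_, ?_, (le_max_left _ _).trans_lt hrat⟩
  · rw [t_stars]
    exact mul_ne_zero (hmpos _).ne' (hmpos _).ne'
  · intro h
    have h2 : rat k W = 0 := by
      rw [rat, h]
      simp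
    rw [h2] at hrat
    linarith
  · rw [t_stars]
    exact mul_ne_zero (hmpos _).ne' (hmpos _).ne'

/-- no sequence of graphons is tight for two values of `k` -/
lemma no_two {W : ℕ → Graphon} {k l : ℕ} (hkl : k < l)
    (h1 : Filter.Tendsto (fun n => rat k (W n)) Filter.atTop (nhds (2 * ((k : ℝ) + 1) / (2 * k + 1))))
    (h2 : Filter.Tendsto (fun n => rat l (W n)) Filter.atTop (nhds (2 * ((l : ℝ) + 1) / (2 * l + 1)))) :
    False := by
  have hk : (0 : ℝ) < 2 * ((k : ℝ) + 1) / (2 * k + 1) := by positivity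
  have hl : (0 : ℝ) < 2 * ((l : ℝ) + 1) / (2 * l + 1) := by positivity
  have h3 := ((tendsto_const_nhds (x := (2 : ℝ))).div h1 hk.ne').add
    ((tendsto_const_nhds (x := (2 : ℝ))).div h2 hl.ne')
  have h4 : ∀ᶠ n in Filter.atTop, 4 - 1 / ((k : ℝ) + 1) ≤ 2 / rat k (W n) + 2 / rat l (W n) := by
    filter_upwards [h1.eventually (lt_mem_nhds hk)] with n hn
    exact rat_key hkl hn.ne'
  have h5 := ge_of_tendsto h3 h4
  have e1 : 2 / (2 * ((k : ℝ) + 1) / (2 * k + 1)) = 2 - 1 / ((k : ℝ) + 1) := by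
    field_simp
    ring
  have e2 : 2 / (2 * ((l : ℝ) + 1) / (2 * l + 1)) = 2 - 1 / ((l : ℝ) + 1) := by
    field_simp
    ring
  rw [e1, e2] at h5
  have : (0 : ℝ) < 1 / ((l : ℝ) + 1) := by positivity
  linarith

end Pool.Agent.X72.Dom
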